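import Mathlib

/-!
# The signature of the non-commuting matrix: definitions (MP_5fbfc2_al)
-/

namespace Pool.Agent.MP_5fbfc2_al

open Classical in
/-- The non-commuting matrix of `G` over `ℝ`: the entry at `(g, h)` is `0` if `g h = h g` and `1`
otherwise. -/
noncomputable def noncommMatrix (G : Type*) [Group G] : Matrix G G ℝ :=
  fun g h => if g * h = h * g then 0 else 1

theorem noncommMatrix_isHermitian (G : Type*) [Group G] : (noncommMatrix G).IsHermitian := by
  ext g h
  rw [Matrix.conjTranspose_apply]
  unfold noncommMatrix
  by_cases hh : g * h = h * g
  · rw [if_pos hh, if_pos hh.symm]; simp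
  · rw [if_neg hh, if_neg (fun h' => hh h'.symm)]; simp

open Classical in
/-- The number of positive eigenvalues of the non-commuting matrix, with multiplicity. -/
noncomputable def posIndex (G : Type*) [Group G] [Fintype G] : ℕ :=
  (Finset.univ.filter fun i => 0 < (noncommMatrix_isHermitian G).eigenvalues i).card

open Classical in
/-- The number of negative eigenvalues of the non-commuting matrix, with multiplicity. -/
noncomputable def negIndex (G : Type*) [Group G] [Fintype G] : ℕ :=
  (Finset.univ.filter fun i => (noncommMatrix_isHermitian G).eigenvalues i < 0).card

end Pool.Agent.MP_5fbfc2_al
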