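import Mathlib

/-!
# Factorisation of a symmetric integer matrix through its row lattice (MP_5fbfc2_al)
-/

namespace Pool.Agent.MP_5fbfc2_al.SG

open Matrix Module

variable {G : Type*} [Fintype G] [DecidableEq G]

/-- A symmetric integer matrix `N` is `Bᵀ S B` with `B` surjective over `ℤ` and `det S ≠ 0`. -/
theorem exists_factor (N : Matrix G G ℤ) (hsym : Nᵀ = N) :
    ∃ (r : ℕ) (B : Matrix (Fin r) G ℤ) (X : Matrix G (Fin r) ℤ),
      B * X = 1 ∧ N = Bᵀ * (Xᵀ * N * X) * B ∧ (Xᵀ * N * X).det ≠ 0 := by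
  let R : Submodule ℤ (G → ℤ) := LinearMap.range N.mulVecLin
  obtain ⟨r, b⟩ : ∃ r : ℕ, Nonempty (Basis (Fin r) ℤ R) := by
    obtain ⟨n, b⟩ := Submodule.basisOfPid (Pi.basisFun ℤ G) R
    exact ⟨n, ⟨b⟩⟩
  obtain ⟨b⟩ := b
  refine ⟨r, ?_⟩
  -- the coordinate map
  let q : (G → ℤ) →ₗ[ℤ] R := N.mulVecLin.rangeRestrict
  let φ : (G → ℤ) →ₗ[ℤ] (Fin r → ℤ) := b.equivFun.toLinearMap ∘ₗ q
  have hφ : Function.Surjective φ :=
    b.equivFun.surjective.comp (LinearMap.surjective_rangeRestrict _)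
  let ψ : (Fin r → ℤ) →ₗ[ℤ] (G → ℤ) := R.subtype ∘ₗ b.equivFun.symm.toLinearMap
  have hψφ : ψ ∘ₗ φ = N.mulVecLin := by
    apply LinearMap.ext
    intro x
    show ((b.equivFun.symm (b.equivFun (q x)) : R) : G → ℤ) = N.mulVecLin x
    rw [LinearEquiv.symm_apply_apply]
    rfl
  obtain ⟨s, hs⟩ : ∃ s : (Fin r → ℤ) →ₗ[ℤ] (G → ℤ), φ ∘ₗ s = LinearMap.id :=
    Module.projective_lifting_property φ LinearMap.id hφ
  let B : Matrix (Fin r) G ℤ := LinearMap.toMatrix' φ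
  let X : Matrix G (Fin r) ℤ := LinearMap.toMatrix' s
  let C : Matrix G (Fin r) ℤ := LinearMap.toMatrix' ψ
  have hBX : B * X = 1 := by
    show LinearMap.toMatrix' φ * LinearMap.toMatrix' s = 1
    rw [← LinearMap.toMatrix'_comp, hs, LinearMap.toMatrix'_id]
  have hCB : C * B = N := by
    show LinearMap.toMatrix' ψ * LinearMap.toMatrix' φ = N
    rw [← LinearMap.toMatrix'_comp, hψφ]
    rw [← Matrix.toLin'_apply']
    exact LinearMap.toMatrix'_toLin' N
  refine ⟨B, X, hBX, ?_⟩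
  have hNX : N * X = C := by
    rw [← hCB, Matrix.mul_assoc C B X, hBX, Matrix.mul_one]
  have h1 : N * X * B = N := by
    rw [← hCB, Matrix.mul_assoc C B X, hBX, Matrix.mul_one]
  have h2 : Bᵀ * Xᵀ * N = N := by
    have h3 := congrArg Matrix.transpose h1
    rw [Matrix.transpose_mul, Matrix.transpose_mul, hsym] at h3
    rw [Matrix.mul_assoc]
    exact h3
  have hfac : N = Bᵀ * (Xᵀ * N * X) * B := by
    calc N = Bᵀ * Xᵀ * N := h2.symm
      _ = Bᵀ * Xᵀ * (N * X * B) := by rw [h1]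
      _ = Bᵀ * (Xᵀ * N * X) * B := by simp only [Matrix.mul_assoc]
  refine ⟨hfac, ?_⟩
  intro hdet
  obtain ⟨v, hv, hv0⟩ := Matrix.exists_mulVec_eq_zero_iff.2 hdet
  apply hv
  have h4 : C = Bᵀ * (Xᵀ * N * X) := by
    calc C = N * X := hNX.symm
      _ = Bᵀ * (Xᵀ * N * X) * B * X := by rw [← hfac]
      _ = Bᵀ * (Xᵀ * N * X) := by rw [Matrix.mul_assoc _ B X, hBX, Matrix.mul_one]
  have h5 : C.mulVec v = 0 := by
    rw [h4, ← Matrix.mulVec_mulVec, hv0, Matrix.mulVec_zero]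
  have h6 : ψ v = 0 := by
    rw [← h5]
    show ψ v = (LinearMap.toMatrix' ψ).mulVec v
    rw [← Matrix.toLin'_apply, Matrix.toLin'_toMatrix']
  have h7 : (b.equivFun.symm v : R) = 0 := Subtype.ext h6
  exact (LinearEquiv.map_eq_zero_iff _).1 h7

/-- the quadratic form of a symmetric integer matrix with zero diagonal is even -/
theorem even_form (N : Matrix G G ℤ) (hsym : ∀ g h, N g h = N h g) (hdiag : ∀ g, N g g = 0)
    (x : G → ℤ) : Even (∑ g, ∑ h, x g * N g h * x h) := by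
  rw [even_iff_two_dvd]
  have h0 : ((∑ g, ∑ h, x g * N g h * x h : ℤ) : ZMod 2) = 0 := by
    push_cast
    rw [← Finset.sum_product']
    apply Finset.sum_involution (fun a _ => (a.2, a.1))
    · rintro ⟨g, h⟩ _
      simp only
      rw [hsym h g]
      have h2 : ((x h : ℤ) : ZMod 2) * ((N g h : ℤ) : ZMod 2) * ((x g : ℤ) : ZMod 2) =
          ((x g : ℤ) : ZMod 2) * ((N g h : ℤ) : ZMod 2) * ((x h : ℤ) : ZMod 2) := by ring
      rw [h2]
      exact CharTwo.add_self_eq_zero _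
    · rintro ⟨g, h⟩ _ hne heq
      apply hne
      have h3 : h = g := congrArg Prod.fst heq
      simp only
      rw [h3, hdiag, Int.cast_zero, mul_zero, zero_mul]
    · rintro ⟨g, h⟩ _
      exact Finset.mem_product.2 ⟨Finset.mem_univ _, Finset.mem_univ _⟩
    · rintro ⟨g, h⟩ _
      rfl
  exact_mod_cast (ZMod.intCast_zmod_eq_zero_iff_dvd _ 2).1 h0

theorem even_diag (N : Matrix G G ℤ) (hsym : ∀ g h, N g h = N h g) (hdiag : ∀ g, N g g = 0)
    {r : ℕ} (X : Matrix G (Fin r) ℤ) (i : Fin r) : Even ((Xᵀ * N * X) i i) := by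
  have h := even_form N hsym hdiag (fun g => X g i)
  convert h using 1
  rw [Matrix.mul_apply]
  rw [Finset.sum_comm]
  apply Finset.sum_congr rfl
  intro h _
  rw [Matrix.mul_apply, Finset.sum_mul]
  rfl

theorem symm_of (N : Matrix G G ℤ) (hsym : Nᵀ = N) {r : ℕ} (X : Matrix G (Fin r) ℤ)
    (i j : Fin r) : (Xᵀ * N * X) i j = (Xᵀ * N * X) j i := by
  have h : (Xᵀ * N * X)ᵀ = Xᵀ * N * X := by
    rw [Matrix.transpose_mul, Matrix.transpose_mul, Matrix.transpose_transpose, hsym,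
      Matrix.mul_assoc]
  exact congrFun (congrFun h j) i

end Pool.Agent.MP_5fbfc2_al.SG
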