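import Mathlib

/-!
# The determinant modulo four of an even symmetric matrix (MP_5fbfc2_al)
-/

namespace Pool.Agent.MP_5fbfc2_al.SG

open Matrix

theorem zmod4_unit (x : ZMod 4) (h : 2 * x ≠ 0) : x * x = 1 := by
  revert x; decide

theorem zmod4_even_mul (x y : ZMod 4) (hx : 2 * x = 0) (hy : 2 * y = 0) : x * y = 0 := by
  revert x y; decide

/-- An invertible symmetric matrix over `ℤ/4` with even diagonal has even size and determinant
`(-1)^(size/2)`. -/
theorem det_mod_four_aux (n : ℕ) : ∀ (ι : Type) [Fintype ι] [DecidableEq ι]
    (S : Matrix ι ι (ZMod 4)), Fintype.card ι = n → (∀ i j, S i j = S j i) →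
    (∀ i, 2 * S i i = 0) → IsUnit S.det →
    Even (Fintype.card ι) ∧ S.det = (-1) ^ (Fintype.card ι / 2) := by
  induction n using Nat.strong_induction_on with
  | _ n ih =>
    intro ι _ _ S hcard hsym hdiag hdet
    rcases Nat.eq_zero_or_pos n with h0 | hpos
    · have : IsEmpty ι := Fintype.card_eq_zero_iff.1 (hcard.trans h0)
      rw [hcard, h0]
      exact ⟨Even.zero, by rw [Matrix.det_isEmpty]; rfl⟩
    · -- an odd entry
      have hex : ∃ i j, 2 * S i j ≠ 0 := by
        by_contra hcon
        push Not at hcon
        have hne : Nonempty ι := Fintype.card_pos_iff.1 (hcard ▸ hpos)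
        obtain ⟨i0⟩ := hne
        have h1 : 2 * S.det = 0 := by
          have h2 : (S.updateRow i0 ((2 : ZMod 4) • S i0)).det = 2 * S.det := by
            rw [Matrix.det_updateRow_smul, Matrix.updateRow_eq_self]
          rw [← h2]
          apply Matrix.det_eq_zero_of_row_eq_zero i0
          intro j
          rw [Matrix.updateRow_self, Pi.smul_apply, smul_eq_mul]
          exact hcon i0 j
        obtain ⟨u, hu⟩ := hdet
        rw [← hu] at h1
        have h2 : (2 : ZMod 4) = 0 := by
          have := congrArg (· * (u⁻¹ : (ZMod 4)ˣ).1) h1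
          simpa [mul_assoc] using this
        exact absurd h2 (by decide)
      obtain ⟨i, j, hij⟩ := hex
      have hne : i ≠ j := by
        intro h
        rw [← h] at hij
        exact hij (hdiag i)
      let p : ι → Prop := fun k => k = i ∨ k = j
      let f : Fin 2 → {k // p k} := ![⟨i, Or.inl rfl⟩, ⟨j, Or.inr rfl⟩]
      have hf : Function.Bijective f := by
        constructor
        · intro a b hab
          fin_cases a <;> fin_cases b
          · rfl
          · exact absurd (congrArg Subtype.val hab) hne
          · exact absurd (congrArg Subtype.val hab).symm hne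
          · rfl
        · rintro ⟨k, rfl | rfl⟩
          · exact ⟨0, rfl⟩
          · exact ⟨1, rfl⟩
      let e : Fin 2 ⊕ {k // ¬ p k} ≃ ι :=
        (Equiv.sumCongr (Equiv.ofBijective f hf) (Equiv.refl _)).trans (Equiv.sumCompl p)
      have he0 : e (Sum.inl 0) = i := rfl
      have he1 : e (Sum.inl 1) = j := rfl
      have her : ∀ k : {k // ¬ p k}, e (Sum.inr k) = k := fun k => rfl
      set a := S i i with ha
      set b := S i j with hb
      set c := S j j with hc
      have hba : S j i = b := hsym j i
      have hbb : b * b = 1 := zmod4_unit b hij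
      have hac : a * c = 0 := zmod4_even_mul a c (hdiag i) (hdiag j)
      have hca : c * a = 0 := by rw [mul_comm]; exact hac
      let A : Matrix (Fin 2) (Fin 2) (ZMod 4) := !![a, b; b, c]
      let Ai : Matrix (Fin 2) (Fin 2) (ZMod 4) := !![-c, b; b, -a]
      let B : Matrix (Fin 2) {k // ¬ p k} (ZMod 4) := fun x k => if x = 0 then S i k else S j k
      let Cm : Matrix {k // ¬ p k} (Fin 2) (ZMod 4) := fun k x => if x = 0 then S i k else S j k
      let D : Matrix {k // ¬ p k} {k // ¬ p k} (ZMod 4) := fun k l => S k l
      have hT : S.submatrix e e = Matrix.fromBlocks A B Cm D := by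
        ext x y
        rcases x with x | x <;> rcases y with y | y
        · fin_cases x <;> fin_cases y
          · rfl
          · rfl
          · exact hba
          · rfl
        · fin_cases x
          · rfl
          · rfl
        · fin_cases y
          · exact hsym _ _
          · exact hsym _ _
        · rfl
      have hAAi : A * Ai = 1 := by
        ext x y
        fin_cases x <;> fin_cases y
        · show (A * Ai) 0 0 = 1
          rw [Matrix.mul_apply, Fin.sum_univ_two]
          show a * -c + b * b = 1
          rw [mul_neg, hac, hbb]; ring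
        · show (A * Ai) 0 1 = 0
          rw [Matrix.mul_apply, Fin.sum_univ_two]
          show a * b + b * -a = 0
          ring
        · show (A * Ai) 1 0 = 0
          rw [Matrix.mul_apply, Fin.sum_univ_two]
          show b * -c + c * b = 0
          ring
        · show (A * Ai) 1 1 = 1
          rw [Matrix.mul_apply, Fin.sum_univ_two]
          show b * b + c * -a = 1
          rw [mul_neg, hca, hbb]; ring
      have hAiA : Ai * A = 1 := mul_eq_one_comm.1 hAAi
      let _ : Invertible A := ⟨Ai, hAiA, hAAi⟩
      have hdA : A.det = -1 := by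
        rw [Matrix.det_fin_two]
        show a * c - b * b = -1
        rw [hac, hbb]; ring
      let S' : Matrix {k // ¬ p k} {k // ¬ p k} (ZMod 4) := D - Cm * Ai * B
      have hdet1 : S.det = A.det * S'.det := by
        have h1 : (S.submatrix e e).det = S.det := Matrix.det_submatrix_equiv_self e S
        rw [← h1, hT]
        exact Matrix.det_fromBlocks₁₁ A B Cm D
      have hS' : ∀ k l, S' k l = S k l - ((-c) * S i k * S i l + b * S i k * S j l +
          b * S j k * S i l + (-a) * S j k * S j l) := by
        intro k l
        show S k l - (Cm * Ai * B) k l = _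
        congr 1
        rw [Matrix.mul_apply, Fin.sum_univ_two, Matrix.mul_apply, Matrix.mul_apply,
          Fin.sum_univ_two, Fin.sum_univ_two]
        show (S i k * -c + S j k * b) * S i l + (S i k * b + S j k * -a) * S j l = _
        ring
      have hcard2 : Fintype.card {k // ¬ p k} + 2 = n := by
        have h1 := Fintype.card_congr e
        rw [Fintype.card_sum, Fintype.card_fin, hcard] at h1
        omega
      have hsym' : ∀ k l, S' k l = S' l k := by
        intro k l
        rw [hS', hS', hsym k l]
        ring
      have hdiag' : ∀ k, 2 * S' k k = 0 := by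
        intro k
        rw [hS']
        have h1 := hdiag (k : ι)
        have h2 : (4 : ZMod 4) = 0 := by decide
        have h3 := hdiag i
        have h4 := hdiag j
        rw [← ha] at h3
        rw [← hc] at h4
        calc 2 * (S k k - ((-c) * S i k * S i k + b * S i k * S j k + b * S j k * S i k +
              (-a) * S j k * S j k))
            = 2 * S k k + (2 * c) * (S i k * S i k) + (2 * a) * (S j k * S j k)
              - 4 * (b * S i k * S j k) := by ring
          _ = 0 := by rw [h1, h4, h3, h2]; ring
      have hdS' : S'.det = - S.det := by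
        rw [hdet1, hdA]; ring
      have hunit' : IsUnit S'.det := by
        rw [hdS']; exact hdet.neg
      obtain ⟨h5, h6⟩ := ih (Fintype.card {k // ¬ p k}) (by omega) {k // ¬ p k} S' rfl hsym' hdiag'
        hunit'
      have hn : Fintype.card ι = Fintype.card {k // ¬ p k} + 2 := by rw [hcard, hcard2]
      refine ⟨?_, ?_⟩
      · rw [hn]; exact h5.add (by decide)
      · have h7 : Fintype.card ι / 2 = Fintype.card {k // ¬ p k} / 2 + 1 := by omega
        rw [h7, pow_succ, ← h6, hdS']
        ring

/-- An even symmetric integer matrix of odd determinant has even size `r` and determinant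
`(-1)^(r/2)` modulo `4`. -/
theorem det_mod_four {r : ℕ} (S : Matrix (Fin r) (Fin r) ℤ) (hsym : ∀ i j, S i j = S j i)
    (hdiag : ∀ i, Even (S i i)) (hdet : ¬ (2 : ℤ) ∣ S.det) :
    Even r ∧ ((S.det : ℤ) : ZMod 4) = (-1) ^ (r / 2) := by
  let T : Matrix (Fin r) (Fin r) (ZMod 4) := S.map (Int.castRingHom (ZMod 4))
  have hTd : T.det = ((S.det : ℤ) : ZMod 4) := by
    have := (Int.castRingHom (ZMod 4)).map_det S
    exact this.symm
  have h1 := det_mod_four_aux r (Fin r) T (Fintype.card_fin r)
    (fun i j => by show ((S i j : ℤ) : ZMod 4) = ((S j i : ℤ) : ZMod 4); rw [hsym])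
    (fun i => by
      show 2 * ((S i i : ℤ) : ZMod 4) = 0
      obtain ⟨k, hk⟩ := hdiag i
      rw [hk]
      push_cast
      have h2 : (4 : ZMod 4) = 0 := by decide
      calc 2 * ((k : ZMod 4) + k) = 4 * k := by ring
        _ = 0 := by rw [h2, zero_mul])
    (by
      rw [hTd]
      obtain ⟨k, hk⟩ : ∃ k, S.det = 2 * k + 1 := by
        have : S.det % 2 = 1 := by omega
        exact ⟨S.det / 2, by omega⟩
      have h3 : ∀ x : ZMod 4, (2 * x + 1) * (2 * x + 1) = 1 := by decide
      rw [hk]
      push_cast
      exact IsUnit.of_mul_eq_one _ (h3 _))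
  rw [Fintype.card_fin, hTd] at h1
  exact h1

end Pool.Agent.MP_5fbfc2_al.SG
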