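import Mathlib

/-!
# The sign of the determinant of a factor of a real symmetric matrix (MP_5fbfc2_al)
-/

namespace Pool.Agent.MP_5fbfc2_al.SG

open Matrix Polynomial

theorem pow_mul_cancel_le {P Q : ℝ[X]} {a b : ℕ} (hab : a ≤ b) (h : X ^ a * P = X ^ b * Q)
    (hP : P.eval 0 ≠ 0) : a = b ∧ P = Q := by
  obtain ⟨c, rfl⟩ := Nat.exists_eq_add_of_le hab
  rw [pow_add, mul_assoc] at h
  have h1 : P = X ^ c * Q := mul_left_cancel₀ (pow_ne_zero a X_ne_zero) h
  rcases Nat.eq_zero_or_pos c with rfl | hc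
  · rw [pow_zero, one_mul] at h1
    exact ⟨rfl, h1⟩
  · exfalso
    apply hP
    rw [h1, eval_mul, eval_pow, eval_X, zero_pow hc.ne', zero_mul]

theorem pow_mul_cancel {P Q : ℝ[X]} {a b : ℕ} (h : X ^ a * P = X ^ b * Q)
    (hP : P.eval 0 ≠ 0) (hQ : Q.eval 0 ≠ 0) : a = b ∧ P = Q := by
  rcases le_total a b with hab | hab
  · exact pow_mul_cancel_le hab h hP
  · obtain ⟨h1, h2⟩ := pow_mul_cancel_le hab h.symm hQ
    exact ⟨h1.symm, h2.symm⟩

variable {G : Type*} [Fintype G] [DecidableEq G]

/-- For a real symmetric `N = Bᵀ S B` with `B` right-invertible and `S` invertible of size `r`,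
exactly `r` eigenvalues of `N` are nonzero and their product is a positive multiple of `det S`. -/
theorem prod_nonzero {r : ℕ} (N : Matrix G G ℝ) (hN : N.IsHermitian) (B : Matrix (Fin r) G ℝ)
    (Y : Matrix G (Fin r) ℝ) (S : Matrix (Fin r) (Fin r) ℝ) (hBY : B * Y = 1)
    (hNS : N = Bᵀ * S * B) (hS : S.det ≠ 0) :
    (Finset.univ.filter fun i => hN.eigenvalues i ≠ 0).card = r ∧
    ∃ d : ℝ, 0 < d ∧
      ∏ i ∈ Finset.univ.filter (fun i => hN.eigenvalues i ≠ 0), hN.eigenvalues i = S.det * d := by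
  have hd : 0 < (B * Bᵀ).det := by
    have h1 : (Bᵀᴴ * Bᵀ).PosDef := by
      apply Matrix.PosDef.conjTranspose_mul_self
      intro u v huv
      have h2 : (Yᵀ * Bᵀ).mulVec u = (Yᵀ * Bᵀ).mulVec v := by
        rw [← Matrix.mulVec_mulVec, ← Matrix.mulVec_mulVec]
        exact congrArg _ huv
      rw [← Matrix.transpose_mul, hBY, Matrix.transpose_one, Matrix.one_mulVec,
        Matrix.one_mulVec] at h2
      exact h2
    have h3 := h1.det_pos
    have h4 : Bᵀᴴ = B := by
      ext i j
      simp [Matrix.conjTranspose_apply]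
    rw [h4] at h3
    exact h3
  set T : Finset G := Finset.univ.filter (fun i => hN.eigenvalues i ≠ 0) with hT
  set P : ℝ[X] := ∏ i ∈ T, (X - C (hN.eigenvalues i)) with hPdef
  set Q : ℝ[X] := (S * B * Bᵀ).charpoly with hQdef
  have hc := Matrix.charpoly_mul_comm' Bᵀ (S * B)
  rw [← Matrix.mul_assoc, ← hNS] at hc
  have hfac : N.charpoly = X ^ (Fintype.card G - T.card) * P := by
    rw [hN.charpoly_eq]
    have h1 := Finset.prod_filter_mul_prod_filter_not (Finset.univ : Finset G)
      (fun i => hN.eigenvalues i ≠ 0) (fun i => (X - C (hN.eigenvalues i) : ℝ[X]))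
    have h2 : ∏ i ∈ Finset.univ.filter (fun i => ¬ hN.eigenvalues i ≠ 0),
        (X - C (hN.eigenvalues i) : ℝ[X]) = X ^ (Fintype.card G - T.card) := by
      have h3 : ∀ i ∈ Finset.univ.filter (fun i => ¬ hN.eigenvalues i ≠ 0),
          (X - C (hN.eigenvalues i) : ℝ[X]) = X := by
        intro i hi
        have h4 := not_not.1 (Finset.mem_filter.1 hi).2
        rw [h4, C_0, sub_zero]
      rw [Finset.prod_congr rfl h3, Finset.prod_const]
      congr 1
      have h5 : T.card + (Finset.univ.filter (fun i => ¬ hN.eigenvalues i ≠ 0)).card =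
          Fintype.card G := by
        rw [← Finset.card_univ]
        exact Finset.card_filter_add_card_filter_not (s := (Finset.univ : Finset G))
          (fun i => hN.eigenvalues i ≠ 0)
      omega
    have h6 : (∏ i, (X - C ((hN.eigenvalues i : ℝ) : ℝ)) : ℝ[X]) = X ^ (Fintype.card G - T.card) * P := by
      rw [← h1, h2, mul_comm]
    simpa using h6
  have hP0 : P.eval 0 = (-1) ^ T.card * ∏ i ∈ T, hN.eigenvalues i := by
    rw [hPdef, eval_prod]
    have h1 : ∀ i ∈ T, eval 0 (X - C (hN.eigenvalues i)) = (-1) * hN.eigenvalues i := by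
      intro i _
      rw [eval_sub, eval_X, eval_C]
      ring
    rw [Finset.prod_congr rfl h1, Finset.prod_mul_distrib, Finset.prod_const]
  have hPne : P.eval 0 ≠ 0 := by
    rw [hP0]
    apply mul_ne_zero (pow_ne_zero _ (by norm_num))
    rw [Finset.prod_ne_zero_iff]
    intro i hi
    exact (Finset.mem_filter.1 hi).2
  have hdet : (S * B * Bᵀ).det = S.det * (B * Bᵀ).det := by
    rw [Matrix.mul_assoc, Matrix.det_mul]
  have hQ0 : Q.eval 0 = (-1) ^ r * (S.det * (B * Bᵀ).det) := by
    have h1 := Matrix.det_eq_sign_charpoly_coeff (S * B * Bᵀ)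
    rw [hdet, Fintype.card_fin, Polynomial.coeff_zero_eq_eval_zero] at h1
    have h2 : ((-1 : ℝ) * -1) ^ r = 1 := by norm_num
    rw [h1, ← mul_assoc, ← mul_pow, h2, one_mul]
  have hQne : Q.eval 0 ≠ 0 := by
    rw [hQ0]
    exact mul_ne_zero (pow_ne_zero _ (by norm_num)) (mul_ne_zero hS hd.ne')
  rw [hfac, ← mul_assoc, ← pow_add, Fintype.card_fin] at hc
  obtain ⟨h1, h2⟩ := pow_mul_cancel hc hPne hQne
  have hle : T.card ≤ Fintype.card G := Finset.card_le_univ T
  have hTr : T.card = r := by omega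
  refine ⟨hTr, (B * Bᵀ).det, hd, ?_⟩
  have h3 : P.eval 0 = Q.eval 0 := by rw [h2]
  rw [hP0, hQ0, hTr] at h3
  exact mul_left_cancel₀ (pow_ne_zero r (by norm_num)) h3

/-- The sign of the product of the nonzero terms of a family of real numbers. -/
theorem sign_prod {ι : Type*} (s : Finset ι) (f : ι → ℝ) :
    0 < (-1) ^ (s.filter fun i => f i < 0).card * ∏ i ∈ s.filter (fun i => f i ≠ 0), f i := by
  classical
  induction s using Finset.induction_on with
  | empty => simp
  | insert a s ha ih =>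
    rcases lt_trichotomy (f a) 0 with h | h | h
    · rw [Finset.filter_insert, if_pos h, Finset.filter_insert, if_pos h.ne,
        Finset.card_insert_of_notMem (fun hh => ha (Finset.mem_filter.1 hh).1),
        Finset.prod_insert (fun hh => ha (Finset.mem_filter.1 hh).1), pow_succ]
      have h1 : (-1 : ℝ) ^ (s.filter fun i => f i < 0).card * -1 *
          (f a * ∏ i ∈ s.filter (fun i => f i ≠ 0), f i) =
          (-f a) * ((-1) ^ (s.filter fun i => f i < 0).card *
            ∏ i ∈ s.filter (fun i => f i ≠ 0), f i) := by ring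
      rw [h1]
      exact mul_pos (by linarith) ih
    · rw [Finset.filter_insert, if_neg (by rw [h]; exact lt_irrefl _), Finset.filter_insert,
        if_neg (by rw [h]; exact fun hh => hh rfl)]
      exact ih
    · rw [Finset.filter_insert, if_neg (not_lt.2 h.le), Finset.filter_insert, if_pos h.ne',
        Finset.prod_insert (fun hh => ha (Finset.mem_filter.1 hh).1)]
      have h1 : (-1 : ℝ) ^ (s.filter fun i => f i < 0).card *
          (f a * ∏ i ∈ s.filter (fun i => f i ≠ 0), f i) =
          (f a) * ((-1) ^ (s.filter fun i => f i < 0).card *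
            ∏ i ∈ s.filter (fun i => f i ≠ 0), f i) := by ring
      rw [h1]
      exact mul_pos h ih

end Pool.Agent.MP_5fbfc2_al.SG
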