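import Pool.Agent.Lib.MP_5fbfc2_al.Odd
import Pool.Agent.Lib.MP_5fbfc2_al.SG.Defs
import Pool.Agent.Lib.MP_5fbfc2_al.SG.Factor
import Pool.Agent.Lib.MP_5fbfc2_al.SG.Mod4
import Pool.Agent.Lib.MP_5fbfc2_al.SG.Sign

/-!
# The signature of the non-commuting matrix and the commuting conductor (MP_5fbfc2_al)
-/

namespace Pool.Agent.MP_5fbfc2_al.SG

open Matrix Module

/-- the rank of `Bᵀ S B` with `B` right-invertible is the rank of `S` -/
theorem rank_factor {K : Type*} [Field K] {ι : Type*} [Fintype ι] [DecidableEq ι] {r : ℕ}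
    (N : Matrix ι ι K) (B : Matrix (Fin r) ι K) (X : Matrix ι (Fin r) K)
    (S : Matrix (Fin r) (Fin r) K) (hBX : B * X = 1) (hNS : N = Bᵀ * S * B) :
    N.rank = S.rank := by
  have hXB : Xᵀ * Bᵀ = 1 := by
    rw [← Matrix.transpose_mul, hBX, Matrix.transpose_one]
  apply le_antisymm
  · rw [hNS]
    exact (Matrix.rank_mul_le_left _ _).trans (Matrix.rank_mul_le_right _ _)
  · have h1 : S = Xᵀ * N * X := by
      rw [hNS]
      calc S = 1 * S * 1 := by rw [Matrix.one_mul, Matrix.mul_one]
        _ = (Xᵀ * Bᵀ) * S * (B * X) := by rw [hXB, hBX]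
        _ = Xᵀ * (Bᵀ * S * B) * X := by simp only [Matrix.mul_assoc]
    calc S.rank = (Xᵀ * N * X).rank := by rw [← h1]
      _ ≤ N.rank := (Matrix.rank_mul_le_left _ _).trans (Matrix.rank_mul_le_right _ _)

theorem det_ne_zero_of_rank {K : Type*} [Field K] {r : ℕ} (S : Matrix (Fin r) (Fin r) K)
    (h : r ≤ S.rank) : S.det ≠ 0 := by
  have h1 : LinearIndependent K S.row := by
    rw [linearIndependent_iff_card_eq_finrank_span]
    rw [Matrix.rank_eq_finrank_span_row] at h
    apply le_antisymm
    · rw [Fintype.card_fin]; exact h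
    · exact finrank_range_le_card _
  have h2 := Matrix.linearIndependent_rows_iff_isUnit.1 h1
  exact ((Matrix.isUnit_iff_isUnit_det S).1 h2).ne_zero

theorem rank_of_det_ne_zero {K : Type*} [Field K] {r : ℕ} (S : Matrix (Fin r) (Fin r) K)
    (h : S.det ≠ 0) : S.rank = r := by
  have h1 := Matrix.rank_of_isUnit S ((Matrix.isUnit_iff_isUnit_det S).2 (Ne.isUnit h))
  rw [h1, Fintype.card_fin]

/-- a natural number congruent to `3` modulo `4` has a prime factor congruent to `3` modulo `4` -/
theorem exists_prime_three (D : ℕ) (hD : D % 4 = 3) : ∃ q : ℕ, q.Prime ∧ q ∣ D ∧ q % 4 = 3 := by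
  induction D using Nat.strong_induction_on with
  | _ D ih =>
    have hD1 : D ≠ 1 := by rintro rfl; omega
    obtain ⟨q, hq, k, hk⟩ := Nat.exists_prime_and_dvd hD1
    by_cases hq3 : q % 4 = 3
    · exact ⟨q, hq, ⟨k, hk⟩, hq3⟩
    · have hqodd : q % 2 = 1 := by
        rcases Nat.even_or_odd q with he | ho
        · exfalso
          obtain ⟨m, hm⟩ := he
          have : D = 2 * (m * k) := by rw [hk, hm]; ring
          omega
        · exact Nat.odd_iff.1 ho
      have hq1 : q % 4 = 1 := by omega
      have hk3 : k % 4 = 3 := by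
        have h1 : D % 4 = (q % 4) * (k % 4) % 4 := by rw [hk, Nat.mul_mod]
        rw [hq1, hD] at h1
        omega
      have hlt : k < D := by
        have hkpos : 0 < k := by
          rcases Nat.eq_zero_or_pos k with rfl | h
          · omega
          · exact h
        rw [hk]
        have := hq.two_le
        nlinarith
      obtain ⟨q', h1, h2, h3⟩ := ih k hlt hk3
      exact ⟨q', h1, h2.trans ⟨q, by rw [hk, mul_comm]⟩, h3⟩

variable {G : Type*} [Group G]

theorem latticeRank_eq_rank [Fintype G] (K : Type*) [Field K] :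
    latticeRank K G = (nonComm K G).rank := by
  rw [Matrix.rank_eq_finrank_span_row]
  unfold latticeRank
  rw [latticeImage_eq_span_rows]
  rfl

open Classical in
/-- the integral non-commuting matrix -/
noncomputable def intMat (G : Type*) [Group G] : Matrix G G ℤ :=
  fun g h => if g * h = h * g then 0 else 1

theorem intMat_symm (g h : G) : intMat G g h = intMat G h g := by
  unfold intMat
  by_cases hh : g * h = h * g
  · rw [if_pos hh, if_pos hh.symm]
  · rw [if_neg hh, if_neg (fun h' => hh h'.symm)]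

theorem intMat_self (g : G) : intMat G g g = 0 := by
  unfold intMat
  rw [if_pos rfl]

theorem intMat_transpose : (intMat G)ᵀ = intMat G := by
  ext g h
  exact intMat_symm h g

theorem nonComm_eq_map (K : Type*) [Field K] : nonComm K G = (intMat G).map (Int.castRingHom K) := by
  ext g h
  show nonComm K G g h = ((intMat G g h : ℤ) : K)
  unfold nonComm ind intMat
  rw [if_pos (Subgroup.mem_top _)]
  by_cases hh : g * h = h * g
  · rw [if_pos (mem_cent_singleton.2 hh), if_pos hh]; simp
  · rw [if_neg (fun h' => hh (mem_cent_singleton.1 h')), if_neg hh]; simp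

theorem noncommMatrix_eq_map : noncommMatrix G = (intMat G).map (Int.castRingHom ℝ) := by
  ext g h
  show noncommMatrix G g h = ((intMat G g h : ℤ) : ℝ)
  unfold noncommMatrix intMat
  by_cases hh : g * h = h * g
  · rw [if_pos hh, if_pos hh]; simp
  · rw [if_neg hh, if_neg hh]; simp

theorem factor_map {ι : Type*} [Fintype ι] [DecidableEq ι] {r : ℕ} {N : Matrix ι ι ℤ}
    {B : Matrix (Fin r) ι ℤ} {S : Matrix (Fin r) (Fin r) ℤ} (hNS : N = Bᵀ * S * B)
    {K : Type*} [Field K] :
    N.map (Int.castRingHom K) = (B.map (Int.castRingHom K))ᵀ * S.map (Int.castRingHom K) *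
      B.map (Int.castRingHom K) := by
  rw [hNS, Matrix.map_mul, Matrix.map_mul, Matrix.transpose_map]

theorem inv_map {ι : Type*} [Fintype ι] [DecidableEq ι] {r : ℕ}
    {B : Matrix (Fin r) ι ℤ} {X : Matrix ι (Fin r) ℤ} (hBX : B * X = 1)
    {K : Type*} [Field K] :
    B.map (Int.castRingHom K) * X.map (Int.castRingHom K) = 1 := by
  rw [← Matrix.map_mul, hBX]
  exact Matrix.map_one _ (map_zero _) (map_one _)

theorem det_map {r : ℕ} (S : Matrix (Fin r) (Fin r) ℤ) {K : Type*} [Field K] :
    (S.map (Int.castRingHom K)).det = ((S.det : ℤ) : K) :=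
  ((Int.castRingHom K).map_det S).symm

/-- The integral data attached to the non-commuting matrix. -/
theorem exists_data [Fintype G] [DecidableEq G] : ∃ (r : ℕ) (S : Matrix (Fin r) (Fin r) ℤ),
    (∀ i j, S i j = S j i) ∧ (∀ i, Even (S i i)) ∧ S.det ≠ 0 ∧
    latticeRank ℚ G = r ∧
    (∀ p : ℕ, p.Prime → (p : ℤ) ∣ S.det → p ∈ Ccomm G) ∧
    (∀ hN : (noncommMatrix G).IsHermitian,
      (Finset.univ.filter fun i => hN.eigenvalues i ≠ 0).card = r ∧
      ∃ d : ℝ, 0 < d ∧
        ∏ i ∈ Finset.univ.filter (fun i => hN.eigenvalues i ≠ 0), hN.eigenvalues i =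
          ((S.det : ℤ) : ℝ) * d) := by
  obtain ⟨r, B, X, hBX, hNS, hdet⟩ := exists_factor (intMat G) intMat_transpose
  set S : Matrix (Fin r) (Fin r) ℤ := Xᵀ * intMat G * X with hS
  have hrank : ∀ (K : Type) [Field K], latticeRank K G = (S.map (Int.castRingHom K)).rank := by
    intro K _
    rw [latticeRank_eq_rank, nonComm_eq_map]
    exact rank_factor _ _ _ _ (inv_map hBX) (factor_map hNS)
  have hQ : latticeRank ℚ G = r := by
    rw [hrank ℚ]
    apply rank_of_det_ne_zero
    rw [det_map]
    exact_mod_cast hdet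
  refine ⟨r, S, symm_of _ intMat_transpose X, even_diag _ intMat_symm intMat_self X, hdet, hQ,
    ?_, ?_⟩
  · intro p hp hdvd
    have : Fact p.Prime := ⟨hp⟩
    refine ⟨hp, ?_⟩
    by_contra hcon
    have h1 : r ≤ latticeRank (ZMod p) G := by rw [← hQ]; exact not_lt.1 hcon
    rw [hrank (ZMod p)] at h1
    apply det_ne_zero_of_rank _ h1
    rw [det_map]
    exact (ZMod.intCast_zmod_eq_zero_iff_dvd _ p).2 hdvd
  · intro hN
    have h1 := prod_nonzero (noncommMatrix G) hN (B.map (Int.castRingHom ℝ))
      (X.map (Int.castRingHom ℝ)) (S.map (Int.castRingHom ℝ)) (inv_map hBX)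
      (by rw [noncommMatrix_eq_map]; exact factor_map hNS)
      (by rw [det_map]; exact_mod_cast hdet)
    rw [det_map] at h1
    exact h1

end Pool.Agent.MP_5fbfc2_al.SG

namespace Pool.Agent.MP_5fbfc2_al

open SG

variable {G : Type*} [Group G]

theorem signature_aux [Fintype G] :
    posIndex G + negIndex G = latticeRank ℚ G ∧
    (Odd ((posIndex G : ℤ) - negIndex G) → 2 ∈ Ccomm G) ∧
    (¬ (4 : ℤ) ∣ (posIndex G : ℤ) - negIndex G → ∃ p ∈ Ccomm G, p % 4 ≠ 1) := by
  classical
  obtain ⟨r, S, hsym, hdiag, hdet, hQ, hC, hE⟩ := exists_data (G := G)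
  obtain ⟨h1, d, hd, h2⟩ := hE (noncommMatrix_isHermitian G)
  have hsum : posIndex G + negIndex G = r := by
    rw [← h1]
    unfold posIndex negIndex
    rw [← Finset.card_union_of_disjoint]
    · congr 1
      · ext i
        simp only [Finset.mem_union, Finset.mem_filter, Finset.mem_univ, true_and]
        constructor
        · rintro (h | h)
          · exact h.ne'
          · exact h.ne
        · intro h
          rcases lt_or_gt_of_ne h with h | h
          · exact Or.inr h
          · exact Or.inl h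
    · rw [Finset.disjoint_filter]
      intro i _ h h'
      exact lt_asymm h h'
  have hsign : 0 < ((-1) ^ negIndex G * S.det : ℤ) := by
    have h3 := sign_prod (Finset.univ : Finset G)
      (fun i => (noncommMatrix_isHermitian G).eigenvalues i)
    rw [h2, ← mul_assoc] at h3
    have h4 := (pos_iff_pos_of_mul_pos h3).2 hd
    have h5 : (0 : ℝ) < (((-1) ^ negIndex G * S.det : ℤ) : ℝ) := by
      rw [Int.cast_mul, Int.cast_pow, Int.cast_neg, Int.cast_one]
      exact h4
    exact Int.cast_pos.1 h5
  refine ⟨hsum.trans hQ.symm, ?_, ?_⟩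
  · intro hodd
    by_contra h2C
    have h3 : ¬ (2 : ℤ) ∣ S.det := fun h => h2C (hC 2 Nat.prime_two (by exact_mod_cast h))
    obtain ⟨⟨k, hk⟩, _⟩ := det_mod_four S hsym hdiag h3
    obtain ⟨m, hm⟩ := hodd
    omega
  · intro h4
    by_cases h2C : 2 ∈ Ccomm G
    · exact ⟨2, h2C, by norm_num⟩
    · have h3 : ¬ (2 : ℤ) ∣ S.det := fun h => h2C (hC 2 Nat.prime_two (by exact_mod_cast h))
      obtain ⟨⟨k, hk⟩, h5⟩ := det_mod_four S hsym hdiag h3
      have hr2 : r / 2 = k := by omega
      rw [hr2] at h5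
      have hodd : Odd (negIndex G + k) := by
        rcases Nat.even_or_odd (negIndex G + k) with he | ho
        · exfalso
          apply h4
          obtain ⟨m, hm⟩ := he
          exact ⟨(m : ℤ) - negIndex G, by omega⟩
        · exact ho
      set D : ℤ := (-1) ^ negIndex G * S.det with hD
      have hD4 : ((D : ℤ) : ZMod 4) = -1 := by
        rw [hD, Int.cast_mul, Int.cast_pow, Int.cast_neg, Int.cast_one, h5, ← pow_add]
        exact hodd.neg_one_pow
      have hDn : D.toNat % 4 = 3 := by
        have h6 : (((D + 1 : ℤ)) : ZMod 4) = 0 := by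
          push_cast
          rw [hD4]; ring
        have h7 := (ZMod.intCast_zmod_eq_zero_iff_dvd _ 4).1 h6
        obtain ⟨c, hc⟩ := h7
        omega
      obtain ⟨q, hq, hqd, hq3⟩ := exists_prime_three D.toNat hDn
      refine ⟨q, hC q hq ?_, by omega⟩
      have h8 : (q : ℤ) ∣ D := by
        have h9 : ((D.toNat : ℕ) : ℤ) = D := Int.toNat_of_nonneg hsign.le
        rw [← h9]
        exact_mod_cast hqd
      have h10 : S.det = (-1) ^ negIndex G * D := by
        rw [hD, ← mul_assoc, ← mul_pow]
        norm_num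
      rw [h10]
      exact h8.mul_left _

/-- If the signature of the non-commuting matrix is not divisible by `4`, then `Ccomm(G)` contains
`2` or a prime congruent to `3` modulo `4`. -/
theorem signature [Fintype G] :
    posIndex G + negIndex G = latticeRank ℚ G ∧
    (Odd (latticeRank ℚ G) → 2 ∈ Ccomm G) ∧
    (¬ (4 : ℤ) ∣ (posIndex G : ℤ) - negIndex G → ∃ p ∈ Ccomm G, p % 4 ≠ 1) := by
  obtain ⟨h1, h2, h3⟩ := signature_aux (G := G)
  refine ⟨h1, fun ho => h2 ?_, h3⟩
  rw [← h1] at ho
  obtain ⟨m, hm⟩ := ho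
  exact ⟨(m : ℤ) - negIndex G, by omega⟩

end Pool.Agent.MP_5fbfc2_al
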